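import Pool.Agent.H17.Omega.Coc

/-!
# The Omega conjecture reduces to `Π₂` sentences with co-countable sets of witnesses

All definitions used in the statement are in `Pool/Agent/H17/Omega/Defs.lean` and
`Pool/Agent/H17/Omega/DefsB.lean`.
-/

universe u

namespace Pool.Agent.Results.MP_6e6bcb_lc.CocountableReduction

open Pool.Agent.H17.Omega

/-- For every sentence `∀ x ∃ y ψ(x, y)` with `ψ` being `Δ₀` there is a sentence `∀ x ∃ y θ(x, y)`
with `θ` being `Δ₀` such that for every hereditarily countable `x` all witnesses are subsets of `x`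
and all but countably many subsets of `x` are witnesses, and such that the two sentences hold in the
same countable transitive models of ZFC, are simultaneously `Ω*`-valid, and are simultaneously
`Ω`-provable. -/
theorem result (ψ : Fml) (hψ : ψ.Delta0) (hfree : ∀ n, ψ.Free n → n = 0 ∨ n = 1) :
    ∃ θ : Fml, θ.Delta0 ∧ (∀ n, θ.Free n → n = 0 ∨ n = 1) ∧
      (∀ x : ZFSet.{u}, HC x → CocountableWitnesses θ x) ∧
      (∀ N : Set ZFSet.{u}, CTM N → (Models N (piTwo ψ) ↔ Models N (piTwo θ))) ∧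
      (ValidStar.{u} (piTwo ψ) ↔ ValidStar.{u} (piTwo θ)) ∧
      (ProvOmega.{u} (piTwo ψ) ↔ ProvOmega.{u} (piTwo θ)) := by
  obtain ⟨θ, h1, h2, h3, h4⟩ := exists_cocountable.{u} hψ hfree
  exact ⟨θ, h1, h2, h3, h4, ⟨validStar_of_ctm fun N hN => (h4 N hN).1,
    validStar_of_ctm fun N hN => (h4 N hN).2⟩,
    ⟨fun ⟨A, hA, h⟩ => ⟨A, hA, fun M hM hcl => (h4 M hM).1 (h M hM hcl)⟩,
      fun ⟨A, hA, h⟩ => ⟨A, hA, fun M hM hcl => (h4 M hM).2 (h M hM hcl)⟩⟩⟩

end Pool.Agent.Results.MP_6e6bcb_lc.CocountableReduction
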