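import Pool.Agent.H52.OM.SkoAll

/-!
# Ω-provability of `Π₂` sentences and code-invariant universally Baire Skolem functions

Definitions used in the statement: `Pool/Agent/H17/Omega/Defs.lean` (formulas, forcing, `ValidStar`, `ProvOmega`, `UB`, codes),
`Pool/Agent/H82/OC/Defs.lean` (`ManyWoodin`), `Pool/Agent/H52/OM/Defs.lean` (`fld`, `WO`, `WOn`) and the two definitions below.
-/

universe u

namespace Pool.Agent.Results.MP_6e6bcb_lc.InvariantSkolem

open Pool.Agent.H17.Omega Pool.Agent.H82.OC Pool.Agent.H52.OM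

/-- The real `c` is a code of the set `x`: in the Mostowski collapse of the relation coded by `c` the number `0` has the
value `x`. -/
def Codes (c : ℕ → ℕ) (x : ZFSet.{u}) : Prop := IsVal (Ec c) x 0

/-- The function `F` from reals to reals is universally Baire: the set of all `(k, l, c)` such that the `k`-th digit of
`F c` is `l` (coded by the real `(k, l, c 0, c 1, ...)`) is universally Baire. -/
def UBMap (F : (ℕ → ℕ) → (ℕ → ℕ)) : Prop := UB.{u} {a : ℕ → ℕ | F (fun n => a (n + 2)) (a 0) = a 1}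

/-- Assume that there is a proper class of Woodin cardinals and let `φ` be the sentence `∀ x ∃ y ψ(x, y)`, `ψ` a `Δ₀` formula.
(1) If `ZFC ⊢_{Ω*} φ` then there is a universally Baire function `F` that sends every code of a set `x` to a code of some
`y` with `ψ(x, y)`.
(2) `ZFC ⊢_Ω φ` if and only if there is a universally Baire function `F` that sends every code of a pair `(x, w)`, `w` a
wellorder of a transitive set that contains `x`, to a code of a set `y = Y(x, w)` with `ψ(x, y)` which does not depend on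
the code. -/
theorem result (hW : ManyWoodin.{u}) (ψ : Fml) (hψ : ψ.Delta0) (hfree : ∀ n, ψ.Free n → n = 0 ∨ n = 1) :
    (ValidStar.{u} (piTwo ψ) → ∃ F : (ℕ → ℕ) → (ℕ → ℕ), UBMap.{u} F ∧
      ∀ (x : ZFSet.{u}) (c : ℕ → ℕ), Codes c x → ∃ y : ZFSet.{u}, Codes (F c) y ∧ Tr ψ x y) ∧
    (ProvOmega.{u} (piTwo ψ) ↔ ∃ F : (ℕ → ℕ) → (ℕ → ℕ), UBMap.{u} F ∧
      ∃ Y : ZFSet.{u} → ZFSet.{u} → ZFSet.{u}, ∀ (x w : ZFSet.{u}) (c : ℕ → ℕ), WOn w x →
        Codes c (ZFSet.pair x w) → Codes (F c) (Y x w) ∧ Tr ψ x (Y x w)) := by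
  refine ⟨fun h => exists_skolem_all hW hψ hfree h, fun h => ?_, ?_⟩
  · obtain ⟨F, Y, hF, hY⟩ := skolem_of_provOmega hW hψ hfree h
    exact ⟨F, hF, Y, hY⟩
  · rintro ⟨F, hF, Y, hY⟩
    exact provOmega_of_skolem hψ hfree hF fun x w c h1 _ h2 => hY x w c h1 h2

end Pool.Agent.Results.MP_6e6bcb_lc.InvariantSkolem
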