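import Pool.Agent.H17.T8.FinD
import Pool.Agent.H17.T8.Seq
import Pool.Agent.H82.OC.FinC

/-!
# The Omega conjecture for sentences about countable sequences of ordinals

The definitions used in the statement are in `Pool/Agent/H17/Omega/Defs.lean` (formulas, ZFC,
forcing, `ValidStar`, universally Baire sets, `A`-closed models, `ProvOmega`),
`Pool/Agent/H82/OC/Defs.lean` (Woodin cardinals: `ElemEmb`, `IsWoodin`, `ManyWoodin`) and
`Pool/Agent/H17/T8/Seq.lean` (`IsSeq`, `SeqFml`).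
-/

universe u

namespace Pool.Agent.Results.MP_6e6bcb_lc.OrdinalSequences

open Pool.Agent.H17.Omega Pool.Agent.H17.Omega.T8 Pool.Agent.H82.OC
open scoped ZFSet

/-- The sentence `∀ v₀ (χ → ∃ v₁ ψ)`. -/
def sent (χ ψ : Fml) : Fml := .all 0 (.imp χ (.ex 1 ψ))

theorem models_sent {M : Set ZFSet.{u}} {χ ψ : Fml} (hχ : ∀ n, χ.Free n → n = 0) :
    Models M (sent χ ψ) ↔ Models M (piTwo (.imp χ ψ)) := by
  refine forall_congr' fun f => forall_congr' fun x => ?_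
  have h : ∀ y, Sat (fun a b : M => a.1 ∈ b.1) χ (upd (upd f 0 x) 1 y) ↔
      Sat (fun a b : M => a.1 ∈ b.1) χ (upd f 0 x) := by
    intro y
    apply Sat.congr_free
    intro n hn
    rw [hχ n hn]
    exact upd_ne _ _ (by decide)
  show (Sat _ χ (upd f 0 x) → ∃ y, Sat _ ψ (upd (upd f 0 x) 1 y)) ↔
    ∃ y, (Sat _ χ (upd (upd f 0 x) 1 y) → Sat _ ψ (upd (upd f 0 x) 1 y))
  constructor
  · intro h1
    by_cases h2 : Sat (fun a b : M => a.1 ∈ b.1) χ (upd f 0 x)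
    · obtain ⟨y, hy⟩ := h1 h2
      exact ⟨y, fun _ => hy⟩
    · exact ⟨x, fun h3 => (h2 ((h x).1 h3)).elim⟩
  · rintro ⟨y, hy⟩ h1
    exact ⟨y, hy ((h y).2 h1)⟩

theorem provOmega_of_woodin (hW : ManyWoodin.{u}) {χ ψ : Fml} (hχ : SeqFml.{u} χ)
    (hψ : ψ.Delta0) (hfree : ∀ n, ψ.Free n → n = 0 ∨ n = 1) {δ : Ordinal.{u}} (hδ : IsWoodin δ)
    (h : Models {x : ZFSet.{u} | x ∈ V_ δ} (sent χ ψ)) : ProvOmega.{u} (sent χ ψ) := by
  obtain ⟨hχ0, hχ1, hχ2⟩ := hχ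
  obtain ⟨f, hf, hf'⟩ := exists_bpFun' hW hδ ((models_sent hχ1).1 h)
  obtain ⟨A, hA, hA'⟩ := prov_of_bpFun (ψ := .imp χ ψ) (.imp hχ0 hψ) (by
    rintro n (hn | hn)
    · exact Or.inl (hχ1 n hn)
    · exact hfree n hn) (by
    intro x y hx h1
    exact (hx (isSeq_iff.1 ((hχ2 (asg x y)).1 h1))).elim) hf hf'
  exact ⟨A, hA, fun M hM hcl => (models_sent hχ1).2 (hA' M hM hcl)⟩

/-- Assume that there is a proper class of Woodin cardinals. Let `φ` be the sentence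
`∀ v₀ (v₀ is a function from ω to the ordinals → ∃ v₁ ψ(v₀, v₁))`, where `ψ` is a `Δ₀` formula
(and the premise is expressed by any `Δ₀` formula `χ`; there is one). If `ZFC ⊢_{Ω*} φ`, or if
only `V_δ ⊨ φ` for one Woodin cardinal `δ`, then `ZFC ⊢_Ω φ`. -/
theorem result (hW : ManyWoodin.{u}) : (∃ χ : Fml, SeqFml.{u} χ) ∧
    ∀ χ ψ : Fml, SeqFml.{u} χ → ψ.Delta0 → (∀ n, ψ.Free n → n = 0 ∨ n = 1) →
      (ValidStar.{u} (sent χ ψ) ∨
        ∃ δ : Ordinal.{u}, IsWoodin δ ∧ Models {x : ZFSet.{u} | x ∈ V_ δ} (sent χ ψ)) →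
      ProvOmega.{u} (sent χ ψ) := by
  refine ⟨exists_seqFml, fun χ ψ hχ hψ hfree h => ?_⟩
  rcases h with hv | ⟨δ, hδ, h⟩
  · obtain ⟨δ, -, hδ⟩ := hW 0
    exact provOmega_of_woodin hW hχ hψ hfree hδ (hδ.models_of_validStar hv)
  · exact provOmega_of_woodin hW hχ hψ hfree hδ h

end Pool.Agent.Results.MP_6e6bcb_lc.OrdinalSequences
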