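import Pool.Agent.H17.Omega.SigC

/-!
# The Omega conjecture for `Π₂` sentences with sigma-compact or thin sets of witnesses

All definitions used in the statement are in `Pool/Agent/H17/Omega/Defs.lean` and
`Pool/Agent/H17/Omega/DefsB.lean`.
-/

universe u

namespace Pool.Agent.Results.MP_6e6bcb_lc.TameWitnesses

open Pool.Agent.H17.Omega

/-- Let `φ` be the sentence `∀ x ∃ y ψ(x, y)`, where `ψ` is `Δ₀`, and suppose that for every
hereditarily countable `x` the hereditarily countable witnesses `y` are the members of countably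
many compact families of subsets of hereditarily countable sets, or there is no perfect set of
witnesses. If `ZFC ⊢_{Ω*} φ`, then `ZFC ⊢_Ω φ`. -/
theorem result (hI : ManyInacc.{u}) (ψ : Fml) (hψ : ψ.Delta0)
    (hfree : ∀ n, ψ.Free n → n = 0 ∨ n = 1)
    (hc : ∀ x : ZFSet.{u}, HC x → SigmaCompactWitnesses ψ x ∨ ¬ PerfectWitnesses ψ x)
    (hvalid : ValidStar.{u} (piTwo ψ)) : ProvOmega.{u} (piTwo ψ) :=
  provOmega_of_sigmaCompact hI hψ hfree hc hvalid

end Pool.Agent.Results.MP_6e6bcb_lc.TameWitnesses
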